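import Pool.Agent.H44.HC.Targets
import Pool.Agent.H44.HC.HaxAbs

/-!
# Quadratic connectivity for Hamiltonicity of star-free graphs: definitions (MP_959f6e_co)
-/

set_option autoImplicit false

open Finset

namespace Pool.Agent.H56.JW

open Pool.Agent.H44.HC (StarFree KConn Link)

section
variable {V : Type}

/-- the degree -/
noncomputable def dg (H : SimpleGraph V) (v : V) : ℕ := (H.neighborSet v).ncard

/-- every independent subset of `B` has at most `a` elements -/
def AlphaLe (a : ℕ) (G : SimpleGraph V) (B : Finset V) : Prop :=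
  ∀ T ⊆ B, (T : Set V).Pairwise (fun x y => ¬ G.Adj x y) → T.card ≤ a

/-- the graph induced on `B` is `k`-connected -/
def KOn [DecidableEq V] (k : ℕ) (G : SimpleGraph V) (B : Finset V) : Prop :=
  k < B.card ∧ ∀ S : Finset V, S.card < k →
    (G.induce ((B \ S : Finset V) : Set V)).Connected

/-- blocks: the connectivity exceeds the independence number by `q` -/
def Block [DecidableEq V] (q : ℕ) (G : SimpleGraph V) (B : Finset V) : Prop :=
  ∃ a, AlphaLe a G B ∧ KOn (a + q) G B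

/-- `H` is a cycle through all vertices of `S` -/
def HamOn (S : Finset V) (H : SimpleGraph V) : Prop :=
  (∀ u v, H.Adj u v → u ∈ S ∧ v ∈ S) ∧ (∀ v ∈ S, dg H v = 2) ∧
    ∀ u ∈ S, ∀ v ∈ S, H.Reachable u v

/-- `M` is a matching with edges inside `S` -/
def Mat (S : Finset V) (M : SimpleGraph V) : Prop :=
  (∀ u v, M.Adj u v → u ∈ S ∧ v ∈ S) ∧ ∀ v, dg M v ≤ 1

/-- paths of `G` in `B` from `x` to `y` through all edges of `M` -/
structure HP (G M : SimpleGraph V) (B : Finset V) (x y : V) (Q : List V) : Prop where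
  nodup : Q.Nodup
  chain : Q.IsChain G.Adj
  head : Q.head? = some x
  last : Q.getLast? = some y
  sub : ∀ v ∈ Q, v ∈ B
  has : ∀ u v, M.Adj u v → [u, v] <:+: Q ∨ [v, u] <:+: Q

end

variable {V : Type} [Fintype V] [DecidableEq V]

open Classical in
/-- the class of `v`: the vertices outside of `X` with the same label -/
noncomputable def cls (X : Finset V) (lab : V → V) (v : V) : Finset V :=
  univ.filter fun w => w ∉ X ∧ lab w = lab v

open Classical in
/-- a packing by blocks with at most `m` vertices; the leftover set `X` is thin -/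
structure Pack (q m : ℕ) (G : SimpleGraph V) (X : Finset V) (lab : V → V) : Prop where
  blk : ∀ v ∉ X, Block q G (cls X lab v)
  size : ∀ v ∉ X, (cls X lab v).card ≤ m
  left : ∀ v, (univ.filter fun x => x ∈ X ∧ G.Adj v x).card < m

/-- a maximum linear forest on `X` -/
structure LinF (G : SimpleGraph V) (X : Finset V) (L : SimpleGraph V) : Prop where
  le : L ≤ G
  inX : ∀ u v, L.Adj u v → u ∈ X ∧ v ∈ X
  deg : ∀ v, dg L v ≤ 2
  acy : L.IsAcyclic
  ends : ∀ u ∈ X, ∀ v ∈ X, u ≠ v → dg L u ≤ 1 → dg L v ≤ 1 → ¬ L.Reachable u v → ¬ G.Adj u v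

open Classical in
/-- the neighbours of `D` outside of `D` -/
noncomputable def nbs (L : SimpleGraph V) (D : Finset V) : Finset V :=
  univ.filter fun s => s ∉ D ∧ ∃ x ∈ D, L.Adj s x

open Classical in
/-- the number of edges of `E` at `v` -/
noncomputable def edeg (E : Finset (Sym2 V)) (v : V) : ℕ := (E.filter fun e => v ∈ e).card

open Classical in
/-- the number of edges of `L` from `s` to `D` -/
noncomputable def pdeg (L : SimpleGraph V) (D : Finset V) (s : V) : ℕ :=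
  (D.filter fun x => L.Adj s x).card

/-- connectors: isolated vertices `D`, packed vertices `P`, the two main packed vertices `a`, `b`
and the sets of edges in the three states (0: connecting `a` and `b`; 1, 2: toggle) -/
structure Cn (V : Type) where
  D : Finset V
  P : Finset V
  a : V
  b : V
  E : Fin 3 → Finset (Sym2 V)

/-- valid connectors -/
structure Cn.Valid (G L : SimpleGraph V) (X : Finset V) (lab : V → V) (κ : Cn V) : Prop where
  DX : κ.D ⊆ X
  Dc : κ.D.card ≤ 2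
  PX : ∀ p ∈ κ.P, p ∉ X
  Pc : κ.P.card ≤ 8
  aP : κ.a ∈ κ.P
  bP : κ.b ∈ κ.P
  ab : lab κ.a ≠ lab κ.b
  adj : ∀ i, ∀ e ∈ κ.E i, e ∈ G.edgeSet
  sup : ∀ i u v, s(u, v) ∈ κ.E i → u ∈ κ.D ∪ nbs L κ.D ∪ κ.P
  XX : ∀ i u v, s(u, v) ∈ κ.E i → u ∈ X → v ∈ X → u ∈ κ.D ∧ v ∈ κ.D
  PP : ∀ i u v, s(u, v) ∈ κ.E i → u ∉ X → v ∉ X → lab u ≠ lab v
  dD : ∀ i, ∀ x ∈ κ.D, edeg (κ.E i) x = 2
  dN : ∀ i, ∀ s ∈ nbs L κ.D, edeg (κ.E i) s = pdeg L κ.D s
  dP : ∀ i, ∀ p ∈ κ.P, edeg (κ.E i) p ≤ 1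
  con : (SimpleGraph.fromEdgeSet (κ.E 0 : Set (Sym2 V))).Reachable κ.a κ.b
  tog : ∀ c, (∑ p ∈ κ.P.filter (fun p => lab p = c), (edeg (κ.E 1) p + edeg (κ.E 2) p)) % 2 =
    ((if lab κ.a = c then 1 else 0) + (if lab κ.b = c then 1 else 0)) % 2

/-- all vertices concerned by a connector -/
noncomputable def Cn.sup (L : SimpleGraph V) (κ : Cn V) : Finset V := κ.D ∪ nbs L κ.D ∪ κ.P

/-- the connector (with the slots `τ`) avoids `U` -/
structure Av (L : SimpleGraph V) (lab : V → V) (q : ℕ) (U : Finset (V ⊕ (V × ℕ))) (κ : Cn V)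
    (τ : V → ℕ) : Prop where
  lt : ∀ p ∈ κ.P, τ p < q
  inj : ∀ p ∈ κ.P, ∀ p' ∈ κ.P, lab p = lab p' → τ p = τ p' → p = p'
  v : ∀ v ∈ κ.sup L, Sum.inl v ∉ U
  s : ∀ p ∈ κ.P, Sum.inr (lab p, τ p) ∉ U

open Classical in
/-- free packed vertices: not in `U`, at least 8 slots of the block outside of `U` -/
def FrP (X : Finset V) (lab : V → V) (q : ℕ) (U : Finset (V ⊕ (V × ℕ))) (v : V) : Prop :=
  v ∉ X ∧ Sum.inl v ∉ U ∧ 8 ≤ ((range q).filter fun s => Sum.inr (lab v, s) ∉ U).card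

open Classical in
/-- good leftover vertices: not in `U`, at least 8 free packed neighbours -/
def GdX (G : SimpleGraph V) (X : Finset V) (lab : V → V) (q : ℕ) (U : Finset (V ⊕ (V × ℕ)))
    (x : V) : Prop :=
  x ∈ X ∧ Sum.inl x ∉ U ∧ 8 ≤ (univ.filter fun v => FrP X lab q U v ∧ G.Adj x v).card

/-- usable leftover vertices: good, with good neighbours in the linear forest -/
def UsX (G L : SimpleGraph V) (X : Finset V) (lab : V → V) (q : ℕ) (U : Finset (V ⊕ (V × ℕ)))
    (x : V) : Prop :=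
  GdX G X lab q U x ∧ ∀ s, L.Adj x s → GdX G X lab q U s

/-- the number of classes of the labels of packed vertices under `pi` -/
def np (X : Finset V) (lab : V → V) (pi : V → V) : ℕ :=
  ((univ \ X).image fun v => pi (lab v)).card

/-- the cut property -/
def CutQ (G L : SimpleGraph V) (X : Finset V) (lab : V → V) (q : ℕ) : Prop :=
  ∀ pi : V → V, 2 ≤ np X lab pi → ∀ U : Finset (V ⊕ (V × ℕ)), U.card ≤ 129 * (np X lab pi - 1) →
    ∃ (κ : Cn V) (τ : V → ℕ), κ.Valid G L X lab ∧ Av L lab q U κ τ ∧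
      pi (lab κ.a) ≠ pi (lab κ.b)

/-- the open slots of the ends of the linear forest -/
def Opn (L : SimpleGraph V) (X : Finset V) (e : V) (j : Fin 2) : Prop :=
  e ∈ X ∧ (j : ℕ) + dg L e < 2

/-- the property of the ends -/
def EndQ (G L : SimpleGraph V) (X : Finset V) (lab : V → V) (q : ℕ) : Prop :=
  ∀ E' : Finset (V × Fin 2), (∀ e ∈ E', Opn L X e.1 e.2) → E'.Nonempty →
    ∀ U : Finset (V ⊕ (V × ℕ)), U.card ≤ 129 * E'.card →
      ∃ e ∈ E', ∃ (b : V) (s : ℕ), b ∉ X ∧ G.Adj e.1 b ∧ s < q ∧ Sum.inl b ∉ U ∧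
        Sum.inr (lab b, s) ∉ U

open Classical in
/-- the packed vertices used by the connectors and the attachments -/
noncomputable def used (L : SimpleGraph V) (X : Finset V) (T : Finset (Cn V))
    (at' : V → Fin 2 → V) : Finset V :=
  T.biUnion Cn.P ∪ (univ.filter fun e : V × Fin 2 => Opn L X e.1 e.2).image
    fun e => at' e.1 e.2

open Classical in
/-- the selection: two linking systems of connectors and attachments of the ends -/
structure Sel (G L : SimpleGraph V) (X : Finset V) (lab : V → V) (q : ℕ) (T1 T2 : Finset (Cn V))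
    (at' : V → Fin 2 → V) : Prop where
  val : ∀ κ ∈ T1 ∪ T2, κ.Valid G L X lab
  d12 : Disjoint T1 T2
  dis : ∀ κ ∈ T1 ∪ T2, ∀ κ' ∈ T1 ∪ T2, κ ≠ κ' → Disjoint (κ.sup L) (κ'.sup L)
  at1 : ∀ e j, Opn L X e j → at' e j ∉ X ∧ G.Adj e (at' e j)
  at2 : ∀ e j e' j', Opn L X e j → Opn L X e' j' → at' e j = at' e' j' → e = e' ∧ j = j'
  at3 : ∀ e j, Opn L X e j → ∀ κ ∈ T1 ∪ T2, at' e j ∉ κ.P
  cap : ∀ c, ((used L X (T1 ∪ T2) at').filter fun v => lab v = c).card ≤ q
  lk1 : ∀ u ∉ X, ∀ v ∉ X, Link (fun κ : Cn V => lab κ.a) (fun κ => lab κ.b) T1 (lab u) (lab v)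
  lk2 : ∀ u ∉ X, ∀ v ∉ X, Link (fun κ : Cn V => lab κ.a) (fun κ => lab κ.b) T2 (lab u) (lab v)

/-- the elements: connectors with slots and a copy, attachments with a slot -/
abbrev Elt (V : Type) := (Cn V × (V → ℕ) × Bool) ⊕ (V × Fin 2 × V × ℕ)

/-- valid elements -/
def valE (G L : SimpleGraph V) (X : Finset V) (lab : V → V) (q : ℕ) : Elt V → Prop
  | .inl (κ, τ, _) => κ.Valid G L X lab ∧ (∀ p ∈ κ.P, τ p < q) ∧
      ∀ p ∈ κ.P, ∀ p' ∈ κ.P, lab p = lab p' → τ p = τ p' → p = p'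
  | .inr (e, j, b, s) => Opn L X e j ∧ b ∉ X ∧ G.Adj e b ∧ s < q

/-- supports: vertices and slots -/
noncomputable def spE (L : SimpleGraph V) (lab : V → V) : Elt V → Finset (V ⊕ (V × ℕ))
  | .inl (κ, τ, _) => (κ.sup L).image Sum.inl ∪ κ.P.image fun p => Sum.inr (lab p, τ p)
  | .inr (_, _, b, s) => {Sum.inl b, Sum.inr (lab b, s)}

/-- vectors -/
noncomputable def phiE (lab : V → V) : Elt V → (Bool → V → ℚ) × (V × Fin 2 → ℚ)
  | .inl (κ, _, i) => (Pi.single i (Pi.single (lab κ.a) 1 - Pi.single (lab κ.b) 1), 0)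
  | .inr (e, j, _, _) => (0, Pi.single (e, j) 1)

open Classical in
/-- the full rank -/
noncomputable def rk (L : SimpleGraph V) (X : Finset V) (lab : V → V) : ℕ :=
  2 * (((univ \ X).image lab).card - 1) +
    (univ.filter fun e : V × Fin 2 => Opn L X e.1 e.2).card

open Classical in
/-- the state of a connector: 0 on `T1`, 2 on `J`, 1 otherwise -/
noncomputable def stt (T1 J : Finset (Cn V)) (κ : Cn V) : Fin 3 :=
  if κ ∈ T1 then 0 else if κ ∈ J then 2 else 1

open Classical in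
/-- the isolated vertices -/
noncomputable def iso (T : Finset (Cn V)) : Finset V := T.biUnion Cn.D

open Classical in
/-- the edges of the outer graph -/
noncomputable def fed (L : SimpleGraph V) (X : Finset V) (T1 T2 J : Finset (Cn V))
    (at' : V → Fin 2 → V) : Set (Sym2 V) :=
  {e | e ∈ L.edgeSet ∧ ∀ x ∈ iso (T1 ∪ T2), x ∉ e} ∪
  {e | ∃ κ ∈ T1 ∪ T2, e ∈ κ.E (stt T1 J κ)} ∪
  {e | ∃ x j, Opn L X x j ∧ x ∉ iso (T1 ∪ T2) ∧ e = s(x, at' x j)}

/-- the outer graph -/
noncomputable def FG (L : SimpleGraph V) (X : Finset V) (T1 T2 J : Finset (Cn V))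
    (at' : V → Fin 2 → V) : SimpleGraph V :=
  SimpleGraph.fromEdgeSet (fed L X T1 T2 J at')

/-- the graph whose edges join the packed vertices with the same label -/
def KL (X : Finset V) (lab : V → V) : SimpleGraph V where
  Adj u v := u ≠ v ∧ u ∉ X ∧ v ∉ X ∧ lab u = lab v
  symm := ⟨fun _ _ h => ⟨h.1.symm, h.2.2.1, h.2.1, h.2.2.2.symm⟩⟩
  loopless := ⟨fun _ h => h.1 rfl⟩

open Classical in
/-- the terminals of the class of `u` -/
noncomputable def trm (X : Finset V) (lab : V → V) (F : SimpleGraph V) (u : V) : Finset V :=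
  (cls X lab u).filter fun v => dg F v = 1

/-- outer structures -/
structure FStr (G : SimpleGraph V) (X : Finset V) (lab : V → V) (q : ℕ) (F : SimpleGraph V) :
    Prop where
  le : F ≤ G
  dX : ∀ x ∈ X, dg F x = 2
  dP : ∀ y ∉ X, dg F y ≤ 1
  acy : F.IsAcyclic
  dif : ∀ u v, F.Adj u v → u ∉ X → v ∉ X → lab u ≠ lab v
  con : ∀ u ∉ X, ∀ v ∉ X, (F ⊔ KL X lab).Reachable u v
  cap : ∀ u ∉ X, (trm X lab F u).card ≤ q
  par : ∀ u ∉ X, Even (trm X lab F u).card

end Pool.Agent.H56.JW
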