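import Pool.Agent.H56.JW.Defs

/-!
# Quadratic connectivity for Hamiltonicity of star-free graphs: targets (board jwq_modules)
-/

set_option autoImplicit false

open Finset

namespace Pool.Agent.H56.JW

open Pool.Agent.H44.HC (StarFree KConn Link ends)
open Pool.Agent.H44.HC.Hax (Good)

/-! ## A. Paths through a matching -/

/-- EXT: a path through the matching can be made to cover `B`. -/
def T_EXT : Prop :=
  ∀ (V : Type) [Fintype V] [DecidableEq V] (G M : SimpleGraph V) (B : Finset V) (a t : ℕ) (x y : V),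
    AlphaLe a G B → KOn (a + t) G B → M ≤ G → Mat B M → M.edgeSet.ncard + 1 ≤ t → x ∈ B → y ∈ B →
    x ≠ y → dg M x = 0 → dg M y = 0 → (∃ Q, HP G M B x y Q) →
    ∃ Q, HP G M B x y Q ∧ ∀ v ∈ B, v ∈ Q

/-- ROT: the rotation lemma. -/
def T_ROT : Prop :=
  ∀ (V : Type) [Fintype V] [DecidableEq V] (G M : SimpleGraph V) (B : Finset V) (t : ℕ)
    (x y u v : V) (l : List V),
    KOn (2 * t) G B → M ≤ G → Mat B M → M.edgeSet.ncard + 1 ≤ t → x ∈ B → y ∈ B → x ≠ y →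
    dg M x = 0 → dg M y = 0 → M.Adj u v →
    HP G (M.deleteEdges {s(u, v)}) ((B.erase x).erase y) u v l →
    (∀ w ∈ (B.erase x).erase y, w ∈ l) → ∃ Q, HP G M B x y Q

/-- LNK: paths through a matching covering `B`. -/
def T_LNK : Prop :=
  ∀ (V : Type) [Fintype V] [DecidableEq V] (G M : SimpleGraph V) (B : Finset V) (a t : ℕ) (x y : V),
    AlphaLe a G B → KOn (a + 2 * t) G B → M ≤ G → Mat B M → M.edgeSet.ncard + 1 = t → x ∈ B →
    y ∈ B → x ≠ y → dg M x = 0 → dg M y = 0 → ∃ Q, HP G M B x y Q ∧ ∀ v ∈ B, v ∈ Q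

/-- L2G: from a list to a cycle. -/
def T_L2G : Prop :=
  ∀ (V : Type) [Fintype V] [DecidableEq V] (Q : List V) (x y : V), Q.Nodup → 3 ≤ Q.length →
    Q.head? = some x → Q.getLast? = some y →
    ∃ C : SimpleGraph V, HamOn Q.toFinset C ∧
      ∀ u v, C.Adj u v ↔ [u, v] <:+: Q ∨ [v, u] <:+: Q ∨ (u = x ∧ v = y) ∨ (u = y ∧ v = x)

/-- HTP: a cycle through all vertices of `B` and all edges of a (virtual) matching. -/
def T_HTP : Prop :=
  ∀ (V : Type) [Fintype V] [DecidableEq V] (G M : SimpleGraph V) (B : Finset V) (a t : ℕ),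
    AlphaLe a G B → KOn (a + 2 * t) G B → Mat B M → M.edgeSet.ncard = t → 1 ≤ t →
    ∃ C : SimpleGraph V, HamOn B C ∧ C ≤ G ⊔ M ∧ M ≤ C

/-- HAMF: a spanning cycle is a Hamiltonian cycle. -/
def T_HAMF : Prop :=
  ∀ (V : Type) [Fintype V] [DecidableEq V] (G C : SimpleGraph V), HamOn univ C → C ≤ G →
    3 ≤ Fintype.card V → G.IsHamiltonian

/-! ## B. Blocks and linear forests -/

/-- PKL: blocks in sets with small independence number. -/
def T_PKL : Prop :=
  ∀ (V : Type) [Fintype V] [DecidableEq V] (G : SimpleGraph V) (a q : ℕ) (H : Finset V),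
    AlphaLe a G H → a * a + (2 * a - 1) * q + 1 ≤ H.card → ∃ B ⊆ H, Block q G B

/-- PACK: a maximal packing by blocks. -/
def T_PACK : Prop :=
  ∀ (V : Type) [Fintype V] [DecidableEq V] (G : SimpleGraph V) (r q : ℕ), 2 ≤ r → StarFree r G →
    ∃ (X : Finset V) (lab : V → V),
      Pack q ((r - 1) * (r - 1) + (2 * (r - 1) - 1) * q + 1) G X lab

/-- LFE: maximum linear forests exist. -/
def T_LFE : Prop :=
  ∀ (V : Type) [Fintype V] [DecidableEq V] (G : SimpleGraph V) (X : Finset V),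
    ∃ L : SimpleGraph V, LinF G X L

/-- LEAF: in a graph of maximum degree 2 every vertex of degree 1 reaches exactly one other. -/
def T_LEAF : Prop :=
  ∀ (V : Type) [Fintype V] [DecidableEq V] (H : SimpleGraph V), (∀ v, dg H v ≤ 2) → ∀ z, dg H z = 1 →
    ∃ z', z' ≠ z ∧ dg H z' = 1 ∧ H.Reachable z z' ∧
      ∀ w, w ≠ z → dg H w = 1 → H.Reachable z w → w = z'

open Classical in
/-- LFN: every vertex sees at most `2 (r - 1)` ends of the linear forest. -/
def T_LFN : Prop :=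
  ∀ (V : Type) [Fintype V] [DecidableEq V] (G L : SimpleGraph V) (X : Finset V) (r : ℕ), 1 ≤ r →
    StarFree r G → LinF G X L → ∀ y : V,
    (univ.filter fun e => e ∈ X ∧ dg L e ≤ 1 ∧ G.Adj y e).card ≤ 2 * (r - 1)

/-! ## C. The abstract Haxell argument -/

/-- HXG: supports with at most `ρ` elements. -/
def T_HXG : Prop :=
  ∀ (Ω W M : Type) [DecidableEq Ω] [DecidableEq W] [AddCommGroup M] [Module ℚ M]
    (val : Ω → Prop) (φ : Ω → M) (sp : Ω → Finset W) (n ρ : ℕ),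
    (∀ z, val z → (sp z).Nonempty) → (∀ z, val z → (sp z).card ≤ ρ) →
    (∀ T, Good val φ sp T → T.card ≤ n) → (∃ T, Good val φ sp T ∧ T.card = n) →
    (∀ T, Good val φ sp T → T.card = n → ∀ R ⊆ T, ∀ U : Finset W, U.card ≤ (2 * ρ - 1) * R.card →
      ∃ z, val z ∧ φ z ∉ Submodule.span ℚ (φ '' ((T \ R : Finset Ω) : Set Ω)) ∧
        Disjoint (sp z) U) → False

open Classical in
/-- HXA: the extension property of sets which are not maximal. -/
def T_HXA : Prop :=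
  ∀ (V : Type) [Fintype V] [DecidableEq V] (G L : SimpleGraph V) (X : Finset V) (lab : V → V)
    (q : ℕ), CutQ G L X lab q → EndQ G L X lab q →
    ∀ T : Finset (Elt V), Good (valE G L X lab q) (phiE lab) (spE L lab) T →
      T.card < rk L X lab → ∀ R ⊆ T, ∀ U : Finset (V ⊕ (V × ℕ)), U.card ≤ 43 * R.card →
        ∃ z, valE G L X lab q z ∧
          phiE lab z ∉ Submodule.span ℚ (phiE lab '' ((T \ R : Finset (Elt V)) : Set (Elt V))) ∧
          Disjoint (spE L lab z) U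

open Classical in
/-- HXB: a good set of full rank gives a selection. -/
def T_HXB : Prop :=
  ∀ (V : Type) [Fintype V] [DecidableEq V] (G L : SimpleGraph V) (X : Finset V) (lab : V → V)
    (q : ℕ) (T : Finset (Elt V)), Good (valE G L X lab q) (phiE lab) (spE L lab) T →
    rk L X lab ≤ T.card →
    ∃ (T1 T2 : Finset (Cn V)) (at' : V → Fin 2 → V), Sel G L X lab q T1 T2 at'

/-- HXC: the supports have at most 22 elements. -/
def T_HXC : Prop :=
  ∀ (V : Type) [Fintype V] [DecidableEq V] (G L : SimpleGraph V) (X : Finset V) (lab : V → V)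
    (q : ℕ), (∀ v, dg L v ≤ 2) → ∀ z : Elt V, valE G L X lab q z →
      (spE L lab z).Nonempty ∧ (spE L lab z).card ≤ 22

/-- HX: the selection exists. -/
def T_HX : Prop :=
  ∀ (V : Type) [Fintype V] [DecidableEq V] (G L : SimpleGraph V) (X : Finset V) (lab : V → V)
    (q : ℕ), (∀ v, dg L v ≤ 2) → (∀ u v, L.Adj u v → u ∈ X ∧ v ∈ X) → CutQ G L X lab q →
    EndQ G L X lab q →
    ∃ (T1 T2 : Finset (Cn V)) (at' : V → Fin 2 → V), Sel G L X lab q T1 T2 at'

/-! ## D. The cut property -/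

/-- SLT: choice of the slots. -/
def T_SLT : Prop :=
  ∀ (V : Type) [Fintype V] [DecidableEq V] (lab : V → V) (q : ℕ) (U : Finset (V ⊕ (V × ℕ)))
    (P : Finset V), P.card ≤ 8 →
    (∀ p ∈ P, 8 ≤ ((range q).filter fun s => Sum.inr (lab p, s) ∉ U).card) →
    ∃ τ : V → ℕ, (∀ p ∈ P, τ p < q) ∧
      (∀ p ∈ P, ∀ p' ∈ P, lab p = lab p' → τ p = τ p' → p = p') ∧
      ∀ p ∈ P, Sum.inr (lab p, τ p) ∉ U

/-- CHZ: choice of distinct free packed neighbours. -/
def T_CHZ : Prop :=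
  ∀ (V : Type) [Fintype V] [DecidableEq V] (G : SimpleGraph V) (X : Finset V) (lab : V → V)
    (q : ℕ) (U : Finset (V ⊕ (V × ℕ))) (N A : Finset V), N.card + A.card ≤ 8 →
    (∀ s ∈ N, GdX G X lab q U s) →
    ∃ z : V → V, (∀ s ∈ N, FrP X lab q U (z s) ∧ G.Adj s (z s) ∧ z s ∉ A) ∧
      ∀ s ∈ N, ∀ s' ∈ N, z s = z s' → s = s'

/-- S1: connectors given by an edge between two blocks. -/
def T_S1 : Prop :=
  ∀ (V : Type) [Fintype V] [DecidableEq V] (G L : SimpleGraph V) (X : Finset V) (lab : V → V)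
    (q : ℕ) (U : Finset (V ⊕ (V × ℕ))) (y y' : V), FrP X lab q U y → FrP X lab q U y' →
    G.Adj y y' → lab y ≠ lab y' →
    ∃ (κ : Cn V) (τ : V → ℕ), κ.Valid G L X lab ∧ Av L lab q U κ τ ∧ lab κ.a = lab y ∧
      lab κ.b = lab y'

/-- S2: connectors through one leftover vertex. -/
def T_S2 : Prop :=
  ∀ (V : Type) [Fintype V] [DecidableEq V] (G L : SimpleGraph V) (X : Finset V) (lab : V → V)
    (q : ℕ) (U : Finset (V ⊕ (V × ℕ))) (x y y' : V), (∀ v, dg L v ≤ 2) →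
    (∀ u v, L.Adj u v → u ∈ X ∧ v ∈ X) → UsX G L X lab q U x → FrP X lab q U y →
    FrP X lab q U y' → G.Adj x y → G.Adj x y' → lab y ≠ lab y' →
    ∃ (κ : Cn V) (τ : V → ℕ), κ.Valid G L X lab ∧ Av L lab q U κ τ ∧ lab κ.a = lab y ∧
      lab κ.b = lab y'

/-- S3: connectors through two adjacent leftover vertices. -/
def T_S3 : Prop :=
  ∀ (V : Type) [Fintype V] [DecidableEq V] (G L : SimpleGraph V) (X : Finset V) (lab : V → V)
    (q : ℕ) (U : Finset (V ⊕ (V × ℕ))) (x x' y y' : V), (∀ v, dg L v ≤ 2) →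
    (∀ u v, L.Adj u v → u ∈ X ∧ v ∈ X) → UsX G L X lab q U x → UsX G L X lab q U x' →
    G.Adj x x' → (∀ s, ¬ (L.Adj x s ∧ L.Adj x' s)) → FrP X lab q U y → FrP X lab q U y' →
    G.Adj x y → G.Adj x' y' → lab y ≠ lab y' →
    ∃ (κ : Cn V) (τ : V → ℕ), κ.Valid G L X lab ∧ Av L lab q U κ τ ∧ lab κ.a = lab y ∧
      lab κ.b = lab y'

open Classical in
/-- CNT: few vertices are not free or not usable. -/
def T_CNT : Prop :=
  ∀ (V : Type) [Fintype V] [DecidableEq V] (G L : SimpleGraph V) (X : Finset V) (lab : V → V)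
    (s m c : ℕ), 1 ≤ s → m ≤ 801 * (s * s) → 2000 * (s * s) ≤ c → KConn c G →
    Pack (400 * s) m G X lab → (∀ v, dg L v ≤ 2) → (∀ u v, L.Adj u v → u ∈ X ∧ v ∈ X) →
    ∀ U : Finset (V ⊕ (V × ℕ)),
      (univ.filter fun v => v ∉ X ∧ ¬ FrP X lab (400 * s) U v).card +
        (univ.filter fun x => x ∈ X ∧ ¬ UsX G L X lab (400 * s) U x).card ≤ 7 * s * U.card

/-- CNI: few classes have no free vertex. -/
def T_CNI : Prop :=
  ∀ (V : Type) [Fintype V] [DecidableEq V] (G : SimpleGraph V) (X : Finset V) (lab : V → V)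
    (q m : ℕ), Pack q m G X lab → ∀ (U : Finset (V ⊕ (V × ℕ))) (N : Finset V),
      (∀ c ∈ N, ∃ v ∉ X, lab v = c) → (∀ v ∉ X, lab v ∈ N → ¬ FrP X lab q U v) →
      N.card * (q - 7) ≤ U.card

/-- CUT: the cut property. -/
def T_CUT : Prop :=
  ∀ (V : Type) [Fintype V] [DecidableEq V] (G L : SimpleGraph V) (X : Finset V) (lab : V → V)
    (s m c : ℕ), 1 ≤ s → m ≤ 801 * (s * s) → 2000 * (s * s) ≤ c → StarFree (s + 1) G →
    KConn c G → Pack (400 * s) m G X lab → LinF G X L → CutQ G L X lab (400 * s)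

/-- ENDQ: the property of the ends. -/
def T_ENDQ : Prop :=
  ∀ (V : Type) [Fintype V] [DecidableEq V] (G L : SimpleGraph V) (X : Finset V) (lab : V → V)
    (s m c : ℕ), 1 ≤ s → m ≤ 801 * (s * s) → 2000 * (s * s) ≤ c → StarFree (s + 1) G →
    KConn c G → Pack (400 * s) m G X lab → LinF G X L → EndQ G L X lab (400 * s)

/-! ## E. The outer graph -/

/-- FDX: the degrees of the outer graph at leftover vertices. -/
def T_FDX : Prop :=
  ∀ (V : Type) [Fintype V] [DecidableEq V] (G L : SimpleGraph V) (X : Finset V) (lab : V → V)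
    (q : ℕ) (T1 T2 : Finset (Cn V)) (at' : V → Fin 2 → V), LinF G X L →
    Sel G L X lab q T1 T2 at' → ∀ J ⊆ T2, ∀ x ∈ X, dg (FG L X T1 T2 J at') x = 2

open Classical in
/-- FDP: the degrees of the outer graph at packed vertices. -/
def T_FDP : Prop :=
  ∀ (V : Type) [Fintype V] [DecidableEq V] (G L : SimpleGraph V) (X : Finset V) (lab : V → V)
    (q : ℕ) (T1 T2 : Finset (Cn V)) (at' : V → Fin 2 → V), LinF G X L →
    Sel G L X lab q T1 T2 at' → ∀ J ⊆ T2, ∀ y ∉ X,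
      dg (FG L X T1 T2 J at') y = (∑ κ ∈ T1 ∪ T2, edeg (κ.E (stt T1 J κ)) y) +
        (univ.filter fun e : V × Fin 2 => Opn L X e.1 e.2 ∧ e.1 ∉ iso (T1 ∪ T2) ∧
          at' e.1 e.2 = y).card ∧
      dg (FG L X T1 T2 J at') y ≤ 1

/-- FA: the outer graph is a subgraph of `G`, acyclic and so on. -/
def T_FA : Prop :=
  ∀ (V : Type) [Fintype V] [DecidableEq V] (G L : SimpleGraph V) (X : Finset V) (lab : V → V)
    (q : ℕ) (T1 T2 : Finset (Cn V)) (at' : V → Fin 2 → V), LinF G X L →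
    Sel G L X lab q T1 T2 at' → ∀ J ⊆ T2,
      FG L X T1 T2 J at' ≤ G ∧ (FG L X T1 T2 J at').IsAcyclic ∧
      (∀ u v, (FG L X T1 T2 J at').Adj u v → u ∉ X → v ∉ X → lab u ≠ lab v) ∧
      (∀ u ∉ X, ∀ v ∉ X, (FG L X T1 T2 J at' ⊔ KL X lab).Reachable u v) ∧
      ∀ u ∉ X, (trm X lab (FG L X T1 T2 J at') u).card ≤ q

/-- FP: the parity correction. -/
def T_FP : Prop :=
  ∀ (V : Type) [Fintype V] [DecidableEq V] (G L : SimpleGraph V) (X : Finset V) (lab : V → V)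
    (q : ℕ) (T1 T2 : Finset (Cn V)) (at' : V → Fin 2 → V), LinF G X L →
    Sel G L X lab q T1 T2 at' → ∃ J ⊆ T2,
      ∀ u ∉ X, Even (trm X lab (FG L X T1 T2 J at') u).card

/-- FST: outer structures exist. -/
def T_FST : Prop :=
  ∀ (V : Type) [Fintype V] [DecidableEq V] (G L : SimpleGraph V) (X : Finset V) (lab : V → V)
    (q : ℕ), LinF G X L → (∃ (T1 T2 : Finset (Cn V)) (at' : V → Fin 2 → V),
      Sel G L X lab q T1 T2 at') → ∃ F : SimpleGraph V, FStr G X lab q F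

/-! ## F. The cycle -/

open Classical in
/-- PAIR: a pairing of the terminals inside their classes which gives one cycle. -/
def T_PAIR : Prop :=
  ∀ (V : Type) [Fintype V] [DecidableEq V] (G : SimpleGraph V) (X : Finset V) (lab : V → V)
    (q : ℕ) (F : SimpleGraph V), FStr G X lab q F → (∃ v ∉ X, dg F v = 1) →
    ∃ M : SimpleGraph V,
      (∀ u v, M.Adj u v → u ∉ X ∧ v ∉ X ∧ lab u = lab v ∧ dg F u = 1 ∧ dg F v = 1) ∧
      (∀ v ∉ X, dg F v = 1 → dg M v = 1) ∧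
      HamOn (univ.filter fun v => v ∈ X ∨ dg F v = 1) (F ⊔ M)

/-- EXP: expansion of one block. -/
def T_EXP : Prop :=
  ∀ (V : Type) [Fintype V] [DecidableEq V] (K H M : SimpleGraph V) (S B : Finset V), HamOn S H →
    M ≤ H → (∀ u v, M.Adj u v → u ∈ B ∧ v ∈ B) → (∀ v ∈ B, v ∈ S → dg M v = 1) →
    (∃ v ∈ B, v ∈ S) → (∀ u v, H.Adj u v → u ∈ B → v ∈ B → M.Adj u v) →
    (∀ M' : SimpleGraph V, (∀ u v, M'.Adj u v → u ∈ B ∧ v ∈ B) → (∀ v ∈ B, v ∈ S → dg M' v = 1) →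
      (∀ v ∈ B, v ∉ S → dg M' v = 0) → ∃ C : SimpleGraph V, HamOn B C ∧ C ≤ K ⊔ M' ∧ M' ≤ C) →
    ∃ H' : SimpleGraph V, HamOn (S ∪ B) H' ∧ H \ M ≤ H' ∧
      ∀ u v, H'.Adj u v → (H.Adj u v ∧ ¬ M.Adj u v) ∨ (u ∈ B ∧ v ∈ B ∧ K.Adj u v)

/-- MEC: the number of edges of a perfect matching. -/
def T_MEC : Prop :=
  ∀ (V : Type) [Fintype V] [DecidableEq V] (M : SimpleGraph V) (Z : Finset V),
    (∀ u v, M.Adj u v → u ∈ Z ∧ v ∈ Z) → (∀ v ∈ Z, dg M v = 1) → 2 * M.edgeSet.ncard = Z.card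

/-- ASM: from an outer structure to a Hamiltonian cycle. -/
def T_ASM : Prop :=
  ∀ (V : Type) [Fintype V] [DecidableEq V] (G : SimpleGraph V) (X : Finset V) (lab : V → V)
    (q : ℕ) (F : SimpleGraph V), 2 ≤ q → (∃ v, v ∉ X) → (∀ v ∉ X, Block q G (cls X lab v)) →
    FStr G X lab q F → G.IsHamiltonian

/-- MAIN: the theorem. -/
def T_MAIN : Prop :=
  ∀ (r c : ℕ), 2 ≤ r → 2000 * ((r - 1) * (r - 1)) ≤ c → ∀ (V : Type) [Fintype V] [DecidableEq V]
    (G : SimpleGraph V), KConn c G → StarFree r G → G.IsHamiltonian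

end Pool.Agent.H56.JW
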